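import Mathlib

/-!
Rational singularities in the form of Kempf's criterion.
-/

namespace Pool.Agent.T9h22.RS

open KaehlerDifferential

section

variable (K : Type*) [Field K] {F : Type*} [Field F] [Algebra K F]

/-- The forms of degree `d` on `F / K` which are regular on the subring `V` : sums of
`v · dx_1 ∧ ⋯ ∧ dx_d` with `v, x_i ∈ V`. -/
noncomputable def Reg (V : Subring F) (d : ℕ) : Submodule V (⋀[F]^d Ω[F⁄K]) :=
  Submodule.span V {ω | ∃ x : Fin d → F, (∀ i, x i ∈ V) ∧
    ω = exteriorPower.ιMulti F d (fun i => D K F (x i))}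

end

section

variable {S : Type*} [CommRing S] [IsDomain S]

/-- The local ring of `S` at the prime `p`, inside the fraction field. -/
def atPrime (p : Ideal S) [hp : p.IsPrime] : Subring (FractionRing S) where
  carrier := {x | ∃ a s : S, s ∉ p ∧
    x * algebraMap S (FractionRing S) s = algebraMap S (FractionRing S) a}
  mul_mem' := by
    rintro x y ⟨a, s, hs, h⟩ ⟨b, t, ht, h'⟩
    refine ⟨a * b, s * t, fun h => (hp.mem_or_mem h).elim hs ht, ?_⟩
    rw [map_mul, map_mul, ← h, ← h']; ring
  one_mem' := ⟨1, 1, fun h => hp.ne_top ((Ideal.eq_top_iff_one p).2 h), by simp⟩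
  add_mem' := by
    rintro x y ⟨a, s, hs, h⟩ ⟨b, t, ht, h'⟩
    refine ⟨a * t + b * s, s * t, fun h => (hp.mem_or_mem h).elim hs ht, ?_⟩
    rw [map_mul, map_add, map_mul, map_mul, ← h, ← h']; ring
  zero_mem' := ⟨0, 1, fun h => hp.ne_top ((Ideal.eq_top_iff_one p).2 h), by simp⟩
  neg_mem' := by
    rintro x ⟨a, s, hs, h⟩
    exact ⟨-a, s, hs, by rw [neg_mul, h, map_neg]⟩

/-- `S` has rational singularities, for a Cohen–Macaulay domain `S` of finite type over a field `K`
of characteristic `0`, in the form of Kempf's criterion: `S` is normal, and every rational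
differential form of degree `dim S` which is regular at all primes of height one is regular
in every discrete valuation ring of `Frac S` which contains `S`. -/
structure HasRationalSingularities (K : Type*) [Field K] (S : Type*) [CommRing S] [IsDomain S]
    [Algebra K S] : Prop where
  normal : IsIntegrallyClosed S
  kempf : ∀ d : ℕ, ringKrullDim S = d → ∀ ω : ⋀[FractionRing S]^d Ω[FractionRing S⁄K],
    (∀ (p : Ideal S) [p.IsPrime], p.height = 1 → ω ∈ Reg K (atPrime p) d) →
    ∀ V : ValuationSubring (FractionRing S), (∀ s : S, algebraMap S (FractionRing S) s ∈ V) →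
      IsDiscreteValuationRing V → ω ∈ Reg K V.toSubring d

end

end Pool.Agent.T9h22.RS
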