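import Pool.Agent.T9h22.RS.Main
import Pool.Agent.T9h31.NA.StepC2
import Pool.Agent.T9h8.NA.Hbp

/-!
Rational singularities of `S`: the final theorems.
-/

set_option linter.unusedSectionVars false

namespace Pool.Agent.T9h22.RS

open MvPolynomial KaehlerDifferential Pool.Agent.T9h29.NA

universe u

section general

variable {K : Type u} [Field K] [CharZero K] [IsAlgClosed K] {B : Type} [Fintype B]
  [DecidableEq B] [Nonempty B] {ι : B → Type} [∀ b, Fintype (ι b)] [∀ b, DecidableEq (ι b)]
  {r : B → ℕ} {A : Type*} [AddCommGroup A]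

theorem card_option_sigma (e : B → ℕ) :
    Fintype.card (Option (Σ b, Fin (e b))) = ∑ b, e b + 1 := by
  rw [Fintype.card_option, Fintype.card_sigma]
  simp

/-- The invariant ring has rational singularities. -/
theorem hasRationalSingularities (M : ∀ b, Matrix (Fin (r b)) (ι b) K) (w : Var ι → A)
    (hM : ∀ b, AllMinors (M b)) (hc : ∀ b, Fintype.card (ι b) = 3 * r b + 1)
    (hr : ∀ b, 1 ≤ r b) (hw : ∀ v, 3 • w v = 0) (hsum : ∀ b, ∑ c, w ⟨b, c⟩ = 0)
    [IsDomain (Stot M w)] : HasRationalSingularities K (Stot M w) := by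
  have hdom : IsDomain (Rg M) := Pool.Agent.T9h8.NA.isDomain_Rg M hM hc hr
  have hN : IsIntegrallyClosed (Stot M w) :=
    Pool.Agent.T9h8.NA.isIntegrallyClosed_Stot w hw M hM hc hr
  have hnoeth := Pool.Agent.T9h46.NA.noeth w hw M hM hc hsum
  have hdim := Pool.Agent.T9h46.NA.dim w hw M hM hc hr hsum
  have hcard : ∀ b, Fintype.card (Fin (2 * r b + 1)) ≤ Fintype.card (ι b) := by
    intro b
    rw [Fintype.card_fin, hc b]
    have := hr b
    omega
  have hemb : ∀ b, Nonempty (Fin (2 * r b + 1) ↪ ι b) :=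
    fun b => Function.Embedding.nonempty_of_card_le (hcard b)
  have q : Fin (∑ b, 2 * r b + 1) ≃ Option (Σ b, Fin (2 * r b)) :=
    (Fintype.equivFinOfCardEq (card_option_sigma fun b => 2 * r b)).symm
  obtain ⟨p, hp, hp1⟩ := Pool.Agent.T9h8.NA.exists_height_one_Stot w hw M hM hc hsum
  have h3 : (3 : K) ≠ 0 := by norm_num
  exact hasRationalSingularities_of_famData hnoeth hN
    (inferInstance : Algebra K (FS M w)) (fracAlg_eq M w) (fun b => (hemb b).some)
    (∑ b, 2 * r b + 1) hdim ⟨p, hp, hp1⟩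
    (famData M w hM hc (fun b => rfl) hr hw hsum q fun p _ hp =>
      Pool.Agent.T9h31.NA.step_C M w h3 hM hc (fun b => rfl) hr hw hsum q hN p hp
        (Pool.Agent.T9h8.NA.hbp w hw M hM hc hr hsum p hp))

end general

section concrete

variable {K : Type u} [Field K] [CharZero K] [IsAlgClosed K]

/-- The concrete ring has rational singularities. -/
theorem hasRationalSingularities_wG (M : ∀ b, Matrix (Fin (rk b)) (Crd b) K)
    (hM : ∀ b, AllMinors (M b)) [IsDomain (Stot M wG)] :
    HasRationalSingularities K (Stot M wG) :=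
  hasRationalSingularities M wG hM Pool.Agent.T9h19.NA.card_Crd Pool.Agent.T9h46.NA.one_le_rk
    Pool.Agent.T9h19.NA.wG_three Pool.Agent.T9h75.NA.sum_wG

end concrete

end Pool.Agent.T9h22.RS
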