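import Pool.Agent.T9h22.RS.Inter

/-!
Kempf's criterion from a family of proportional generators.
-/

set_option linter.unusedSectionVars false

namespace Pool.Agent.T9h22.RS

open KaehlerDifferential

variable {K : Type*} [Field K] {S : Type*} [CommRing S] [IsDomain S] [Algebra K S]

theorem smul_mem_Reg_of_const {V : Subring (FractionRing S)}
    (hV : ∀ s : S, algebraMap S (FractionRing S) s ∈ V) {d : ℕ} (κ : K)
    {ω : ⋀[FractionRing S]^d Ω[FractionRing S⁄K]} (h : ω ∈ Reg K V d) : κ • ω ∈ Reg K V d := by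
  have h1 := (Reg K V d).smul_mem ⟨algebraMap S (FractionRing S) (algebraMap K S κ), hV _⟩ h
  have h2 : κ • ω = algebraMap S (FractionRing S) (algebraMap K S κ) • ω := by
    rw [← IsScalarTower.algebraMap_apply, algebraMap_smul]
  rw [h2]
  exact h1

/-- Kempf's criterion from a family of proportional generators. -/
theorem kempf_of_family [IsNoetherianRing S] [IsIntegrallyClosed S] {C : Type*} (c0 : C) (d : ℕ)
    (Ω₀ : C → ⋀[FractionRing S]^d Ω[FractionRing S⁄K])
    (hgen : ∀ c c', ∃ κ : K, κ ≠ 0 ∧ Ω₀ c' = κ • Ω₀ c)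
    (hex : ∃ (p : Ideal S) (_ : p.IsPrime), p.height = 1)
    (hC : ∀ (p : Ideal S) [p.IsPrime], p.height = 1 → ∃ c, ∀ x : Fin d → FractionRing S,
      (∀ i, x i ∈ atPrime p) → ∃ g ∈ atPrime p,
        exteriorPower.ιMulti (FractionRing S) d (fun i => D K (FractionRing S) (x i)) = g • Ω₀ c)
    (hB : ∀ V : ValuationSubring (FractionRing S),
      (∀ s : S, algebraMap S (FractionRing S) s ∈ V) → IsDiscreteValuationRing V →
        ∃ c, Ω₀ c ∈ Reg K V.toSubring d)
    (ω : ⋀[FractionRing S]^d Ω[FractionRing S⁄K])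
    (hω : ∀ (p : Ideal S) [p.IsPrime], p.height = 1 → ω ∈ Reg K (atPrime p) d)
    (V : ValuationSubring (FractionRing S))
    (hV : ∀ s : S, algebraMap S (FractionRing S) s ∈ V) (hVd : IsDiscreteValuationRing V) :
    ω ∈ Reg K V.toSubring d := by
  refine kempf_of_generator d (Ω₀ c0) hex ?_ ?_ ω hω V hV hVd
  · intro p _ hp x hx
    obtain ⟨c, hc⟩ := hC p hp
    obtain ⟨g, hg, hgx⟩ := hc x hx
    obtain ⟨κ, -, hκ⟩ := hgen c0 c
    refine ⟨g * algebraMap S (FractionRing S) (algebraMap K S κ),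
      (atPrime p).mul_mem hg (algebraMap_mem_atPrime p _), ?_⟩
    rw [hgx, hκ, mul_smul, ← IsScalarTower.algebraMap_apply, algebraMap_smul]
  · intro V hV hVd
    obtain ⟨c, hc⟩ := hB V hV hVd
    obtain ⟨κ, -, hκ⟩ := hgen c c0
    rw [hκ]
    exact smul_mem_Reg_of_const hV κ hc

/-- The structure `HasRationalSingularities` from a family of proportional generators. -/
theorem hasRationalSingularities_of_family (hS : IsNoetherianRing S) (hN : IsIntegrallyClosed S)
    {C : Type*} (c0 : C) (d : ℕ) (hd : ringKrullDim S = d)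
    (Ω₀ : C → ⋀[FractionRing S]^d Ω[FractionRing S⁄K])
    (hgen : ∀ c c', ∃ κ : K, κ ≠ 0 ∧ Ω₀ c' = κ • Ω₀ c)
    (hex : ∃ (p : Ideal S) (_ : p.IsPrime), p.height = 1)
    (hC : ∀ (p : Ideal S) [p.IsPrime], p.height = 1 → ∃ c, ∀ x : Fin d → FractionRing S,
      (∀ i, x i ∈ atPrime p) → ∃ g ∈ atPrime p,
        exteriorPower.ιMulti (FractionRing S) d (fun i => D K (FractionRing S) (x i)) = g • Ω₀ c)
    (hB : ∀ V : ValuationSubring (FractionRing S),
      (∀ s : S, algebraMap S (FractionRing S) s ∈ V) → IsDiscreteValuationRing V →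
        ∃ c, Ω₀ c ∈ Reg K V.toSubring d) :
    HasRationalSingularities K S := by
  refine ⟨hN, ?_⟩
  intro d' hd'
  have : d' = d := by
    rw [hd] at hd'
    exact_mod_cast hd'.symm
  subst this
  exact kempf_of_family c0 d' Ω₀ hgen hex hC hB

/-- The `K`-algebra structure of the fraction field. -/
noncomputable abbrev fracAlg (K : Type*) [Field K] (S : Type*) [CommRing S] [Algebra K S] :
    Algebra K (FractionRing S) := inferInstance

/-- The data of `hasRationalSingularities_of_family` with respect to a given algebra structure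
of the fraction field. -/
def FamData (K : Type*) [Field K] (S : Type*) [CommRing S] [IsDomain S]
    (inst : Algebra K (FractionRing S)) (C : Type*) (d : ℕ) : Prop :=
  ∃ Ω₀ : C → ⋀[FractionRing S]^d Ω[FractionRing S⁄K],
    (∀ c c', ∃ κ : K, κ ≠ 0 ∧ Ω₀ c' = κ • Ω₀ c) ∧
    (∀ (p : Ideal S) [p.IsPrime], p.height = 1 → ∃ c, ∀ x : Fin d → FractionRing S,
      (∀ i, x i ∈ atPrime p) → ∃ g ∈ atPrime p,
        exteriorPower.ιMulti (FractionRing S) d (fun i => D K (FractionRing S) (x i)) = g • Ω₀ c) ∧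
    (∀ V : ValuationSubring (FractionRing S),
      (∀ s : S, algebraMap S (FractionRing S) s ∈ V) → IsDiscreteValuationRing V →
        ∃ c, Ω₀ c ∈ Reg K V.toSubring d)

theorem hasRationalSingularities_of_famData (hS : IsNoetherianRing S) (hN : IsIntegrallyClosed S)
    (inst : Algebra K (FractionRing S)) (hinst : inst = fracAlg K S)
    {C : Type*} (c0 : C) (d : ℕ) (hd : ringKrullDim S = d)
    (hex : ∃ (p : Ideal S) (_ : p.IsPrime), p.height = 1) (h : FamData K S inst C d) :
    HasRationalSingularities K S := by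
  subst hinst
  obtain ⟨Ω₀, h1, h2, h3⟩ := h
  exact hasRationalSingularities_of_family hS hN c0 d hd Ω₀ h1 hex h2 h3

end Pool.Agent.T9h22.RS
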