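import Pool.Agent.T9h22.RS.Data

/-!
Choice of the reference data for a valuation ring.
-/

set_option linter.unusedSectionVars false

namespace Pool.Agent.T9h22.RS

open Pool.Agent.T9h29.NA

/-- An enumeration of the complement of `J` which starts with `c`. -/
theorem exists_ch {r e : ℕ} {κ : Type*} [Fintype κ] [DecidableEq κ]
    (hc : Fintype.card κ = r + (e + 1)) (c : κ) (J : Finset κ) (hJ : J.card = r) (hcJ : c ∉ J) :
    ∃ ch : Fin (e + 1) ↪ κ, ch 0 = c ∧ ∀ v, v ∈ Set.range ch ↔ v ∉ J := by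
  have hcard : Fintype.card (Jᶜ : Finset κ) = e + 1 := by
    rw [Fintype.card_coe, Finset.card_compl, hc, hJ]; omega
  let eq : Fin (e + 1) ≃ (Jᶜ : Finset κ) := (Fintype.equivFinOfCardEq hcard).symm
  let c' : (Jᶜ : Finset κ) := ⟨c, Finset.mem_compl.2 hcJ⟩
  let eq' : Fin (e + 1) ≃ (Jᶜ : Finset κ) := (Equiv.swap 0 (eq.symm c')).trans eq
  refine ⟨eq'.toEmbedding.trans (Function.Embedding.subtype _), ?_, ?_⟩
  · simp [eq', c']
  · intro v
    constructor
    · rintro ⟨i, rfl⟩
      exact Finset.mem_compl.1 (eq' i).2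
    · intro hv
      refine ⟨eq'.symm ⟨v, Finset.mem_compl.2 hv⟩, ?_⟩
      simp

/-- Among the solutions of `∑ M_jc ρ_c = 0` with `ρ_c ∈ V`, `ρ_(c0) = 1`, at least `r`
further coordinates are units. -/
theorem exists_units {K : Type*} [Field K] {F : Type*} [Field F] [Algebra K F]
    (V : ValuationSubring F) (hK : ∀ k : K, algebraMap K F k ∈ V) {r e : ℕ} {κ : Type}
    [Fintype κ] [DecidableEq κ] (M : Matrix (Fin r) κ K) (hM : AllMinors M)
    (hc : Fintype.card κ = r + (e + 1)) (ρ : κ → F) (hρ : ∀ c, ρ c ∈ V) (c0 : κ)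
    (h0 : ρ c0 = 1) (hsum : ∀ j, ∑ c, algebraMap K F (M j c) * ρ c = 0) :
    ∃ J : Finset κ, J.card = r ∧ c0 ∉ J ∧ ∀ c ∈ J, ρ c ≠ 0 ∧ (ρ c)⁻¹ ∈ V := by
  classical
  -- the units
  set W : Finset κ := Finset.univ.filter fun c => V.valuation (ρ c) = 1 with hW
  have hc0W : c0 ∈ W := by rw [hW]; simp [h0]
  suffices hcard : r + 1 ≤ W.card by
    have h1 : r ≤ (W.erase c0).card := by
      rw [Finset.card_erase_of_mem hc0W]; omega
    obtain ⟨J, hJ, hJr⟩ := Finset.exists_subset_card_eq h1
    refine ⟨J, hJr, fun h => Finset.notMem_erase c0 W (hJ h), fun c hcJ => ?_⟩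
    have h2 : V.valuation (ρ c) = 1 := by
      have := Finset.mem_of_mem_erase (hJ hcJ)
      rw [hW, Finset.mem_filter] at this
      exact this.2
    have h3 : ρ c ≠ 0 := by
      intro h; rw [h, map_zero] at h2; exact zero_ne_one h2
    refine ⟨h3, ?_⟩
    rw [← ValuationSubring.valuation_le_one_iff, map_inv₀, h2, inv_one]
  by_contra hcon
  have hWr : W.card ≤ r := by omega
  -- an injective family of `r` columns containing `W`
  obtain ⟨W', hWW', hW'r⟩ : ∃ W' : Finset κ, W ⊆ W' ∧ W'.card = r := by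
    obtain ⟨W', h1, -, h2⟩ := Finset.exists_subsuperset_card_eq (Finset.subset_univ W) hWr
      (by rw [Finset.card_univ, hc]; omega)
    exact ⟨W', h1, h2⟩
  let f : Fin r ≃ W' := (Fintype.equivFinOfCardEq (by rw [Fintype.card_coe, hW'r])).symm
  have hdet : (M.submatrix id (fun k => (f k : κ))).det ≠ 0 := by
    apply hM
    intro a b hab
    exact f.injective (Subtype.ext hab)
  set N := M.submatrix id (fun k => (f k : κ)) with hN
  -- multiply by the inverse
  have key : ∀ k : Fin r, V.valuation (ρ (f k)) < 1 := by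
    intro k
    have h1 : ρ (f k) = -∑ j, algebraMap K F (N⁻¹ k j) *
        ∑ c ∈ W'ᶜ, algebraMap K F (M j c) * ρ c := by
      have h2 : ∀ j, ∑ c ∈ W'ᶜ, algebraMap K F (M j c) * ρ c =
          -∑ l, algebraMap K F (N j l) * ρ (f l) := by
        intro j
        have h3 := hsum j
        rw [← Finset.sum_add_sum_compl W'] at h3
        have h4 : ∑ c ∈ W', algebraMap K F (M j c) * ρ c =
            ∑ l, algebraMap K F (N j l) * ρ (f l) := by
          rw [← Finset.sum_coe_sort W' fun c => algebraMap K F (M j c) * ρ c]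
          exact (Equiv.sum_comp f fun c : W' => algebraMap K F (M j c) * ρ c).symm
        rw [h4] at h3
        linear_combination h3
      simp_rw [h2]
      rw [← Finset.sum_neg_distrib]
      have h5 : ∀ j, -(algebraMap K F (N⁻¹ k j) * -∑ l, algebraMap K F (N j l) * ρ (f l)) =
          ∑ l, algebraMap K F (N⁻¹ k j * N j l) * ρ (f l) := by
        intro j
        rw [mul_neg, neg_neg, Finset.mul_sum]
        refine Finset.sum_congr rfl fun l _ => ?_
        rw [map_mul]; ring
      simp_rw [h5]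
      rw [Finset.sum_comm]
      have h6 : ∀ l, ∑ j, algebraMap K F (N⁻¹ k j * N j l) * ρ (f l) =
          if k = l then ρ (f l) else 0 := by
        intro l
        rw [← Finset.sum_mul, ← map_sum]
        have h7 : ∑ j, N⁻¹ k j * N j l = (N⁻¹ * N) k l := by rw [Matrix.mul_apply]
        rw [h7, Matrix.nonsing_inv_mul N (isUnit_iff_ne_zero.2 hdet), Matrix.one_apply]
        split_ifs <;> simp
      simp_rw [h6]
      simp
    rw [h1, Valuation.map_neg]
    refine Valuation.map_sum_lt _ one_ne_zero fun j _ => ?_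
    rw [map_mul]
    refine lt_of_le_of_lt (mul_le_mul_left ((V.valuation_le_one_iff _).2 (hK _)) _) ?_
    rw [one_mul]
    refine Valuation.map_sum_lt _ one_ne_zero fun c hcW => ?_
    rw [map_mul]
    have h8 : V.valuation (ρ c) < 1 := by
      refine lt_of_le_of_ne ((V.valuation_le_one_iff _).2 (hρ c)) fun h => ?_
      exact Finset.mem_compl.1 hcW (hWW' (by rw [hW, Finset.mem_filter]; exact ⟨Finset.mem_univ c, h⟩))
    refine lt_of_le_of_lt (mul_le_mul_left ((V.valuation_le_one_iff _).2 (hK _)) _) ?_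
    rwa [one_mul]
  have := key (f.symm ⟨c0, hWW' hc0W⟩)
  rw [Equiv.apply_symm_apply] at this
  simp [h0] at this

end Pool.Agent.T9h22.RS
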