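import Pool.Agent.T9h22.RS.Defs

/-!
Wedge products of logarithmic differentials in a discrete valuation ring.
-/

set_option linter.unusedSectionVars false

namespace Pool.Agent.T9h22.RS

open KaehlerDifferential

section

variable {K : Type*} [Field K] {F : Type*} [Field F] [Algebra K F]

theorem smul_mem_Reg {V : Subring F} {d : ℕ} {c : F} (hc : c ∈ V) {y : Fin d → F}
    (hy : ∀ i, y i ∈ V) :
    c • exteriorPower.ιMulti F d (fun i => D K F (y i)) ∈ Reg K V d :=
  (Reg K V d).smul_mem ⟨c, hc⟩ (Submodule.subset_span ⟨y, hy, rfl⟩)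

theorem mem_of_pow_mem (V : ValuationSubring F) {x : F} {n : ℕ} (hn : n ≠ 0) (h : x ^ n ∈ V) :
    x ∈ V := by
  rw [← ValuationSubring.valuation_le_one_iff] at h ⊢
  rw [map_pow] at h
  exact (pow_le_one_iff hn).1 h

/-- **Logarithmic forms.** If `z_i ∈ V` are nonzero and `Φ^3 = u ∏ z_i` with a unit `u` of the
discrete valuation ring `V`, then `Φ dlog z_1 ∧ ⋯ ∧ dlog z_d` is regular in `V`. -/
theorem log_mem_Reg (V : ValuationSubring F) [IsDiscreteValuationRing V] {d : ℕ} (z : Fin d → F)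
    (hz0 : ∀ i, z i ≠ 0) (hz : ∀ i, z i ∈ V) (Φ u : F) (hu : u ∈ V)
    (hΦ : Φ ^ 3 = u * ∏ i, z i) :
    Φ • exteriorPower.ιMulti F d (fun i => (z i)⁻¹ • D K F (z i)) ∈ Reg K V.toSubring d := by
  classical
  obtain ⟨π, hπ⟩ := IsDiscreteValuationRing.exists_irreducible V
  have hπ0 : (π : F) ≠ 0 := fun h => hπ.ne_zero (Subtype.ext h)
  -- `z i = ε i * π ^ n i`
  have hfac : ∀ i, ∃ (n : ℕ) (ε : Vˣ), z i = ((ε : V) : F) * (π : F) ^ n := by
    intro i
    have h0 : (⟨z i, hz i⟩ : V) ≠ 0 := fun h => hz0 i (congrArg Subtype.val h)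
    obtain ⟨n, ε, h⟩ := IsDiscreteValuationRing.eq_unit_mul_pow_irreducible h0 hπ
    exact ⟨n, ε, by simpa using congrArg Subtype.val h⟩
  choose n ε hε using hfac
  have hε0 : ∀ i, ((ε i : V) : F) ≠ 0 := fun i h => (ε i).ne_zero (Subtype.ext h)
  have hεinv : ∀ i, ((ε i : V) : F)⁻¹ ∈ V := by
    intro i
    have h1 : ((ε i : V) : F) * (((ε i)⁻¹ : Vˣ) : V) = 1 := by
      have := congrArg Subtype.val (ε i).mul_inv
      exact this
    rw [← eq_inv_of_mul_eq_one_right h1]
    exact Subtype.mem _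
  have hΦV : Φ ∈ V := by
    apply mem_of_pow_mem V (n := 3) (by norm_num)
    rw [hΦ]
    exact mul_mem hu (prod_mem fun i _ => hz i)
  -- the logarithmic differentials
  have hdlog : ∀ i, (z i)⁻¹ • D K F (z i) =
      ((ε i : V) : F)⁻¹ • D K F ((ε i : V) : F) + ((n i : F) * (π : F)⁻¹) • D K F (π : F) := by
    intro i
    rw [hε i, Derivation.leibniz, Derivation.leibniz_pow, smul_add, smul_smul, smul_smul,
      add_comm]
    congr 1
    · congr 1
      field_simp [hε0 i, hπ0]
    · rw [← Nat.cast_smul_eq_nsmul F, smul_smul, smul_smul]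
      congr 1
      rcases Nat.eq_zero_or_pos (n i) with h | h
      · rw [h]; simp
      · obtain ⟨m, hm⟩ : ∃ m, n i = m + 1 := ⟨n i - 1, by omega⟩
        rw [hm]
        simp only [Nat.add_sub_cancel]
        field_simp [hε0 i, hπ0]
        rw [pow_succ]; ring
  -- expansion
  have hexp : exteriorPower.ιMulti F d (fun i => (z i)⁻¹ • D K F (z i)) =
      ∑ s : Finset (Fin d), (∏ i, if i ∈ s then ((ε i : V) : F)⁻¹ else ((n i : F) * (π : F)⁻¹)) •
        exteriorPower.ιMulti F d (fun i => D K F (if i ∈ s then ((ε i : V) : F) else (π : F))) := by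
    have h1 : (fun i => (z i)⁻¹ • D K F (z i)) =
        (fun i => ((ε i : V) : F)⁻¹ • D K F ((ε i : V) : F)) +
          fun i => ((n i : F) * (π : F)⁻¹) • D K F (π : F) := by
      funext i; exact hdlog i
    rw [h1]
    have h2 := (exteriorPower.ιMulti F d (M := Ω[F⁄K])).toMultilinearMap.map_add_univ
      (fun i => ((ε i : V) : F)⁻¹ • D K F ((ε i : V) : F))
      (fun i => ((n i : F) * (π : F)⁻¹) • D K F (π : F))
    refine h2.trans (Finset.sum_congr rfl fun s _ => ?_)
    have h3 : (s.piecewise (fun i => ((ε i : V) : F)⁻¹ • D K F ((ε i : V) : F))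
        fun i => ((n i : F) * (π : F)⁻¹) • D K F (π : F)) =
        fun i => (if i ∈ s then ((ε i : V) : F)⁻¹ else ((n i : F) * (π : F)⁻¹)) •
          D K F (if i ∈ s then ((ε i : V) : F) else (π : F)) := by
      funext i
      by_cases hi : i ∈ s
      · simp [Finset.piecewise, hi]
      · simp [Finset.piecewise, hi]
    rw [h3]
    exact (exteriorPower.ιMulti F d (M := Ω[F⁄K])).toMultilinearMap.map_smul_univ _ _
  rw [hexp, Finset.smul_sum]
  refine Submodule.sum_mem _ fun s _ => ?_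
  rw [smul_smul]
  by_cases htwo : ∃ i j, i ≠ j ∧ i ∉ s ∧ j ∉ s
  · obtain ⟨i, j, hij, hi, hj⟩ := htwo
    rw [AlternatingMap.map_eq_zero_of_eq _ _ (i := i) (j := j) (by simp [hi, hj]) hij, smul_zero]
    exact zero_mem _
  · refine smul_mem_Reg ?_ (fun i => ?_)
    swap
    · by_cases hi : i ∈ s
      · rw [if_pos hi]; exact Subtype.mem _
      · rw [if_neg hi]; exact Subtype.mem _
    push Not at htwo
    by_cases hs : ∃ i, i ∉ s
    · obtain ⟨i, hi⟩ := hs
      have hall : ∀ j, j ≠ i → j ∈ s := fun j hj => by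
        by_contra hjs
        exact hi (htwo j i hj hjs)
      rw [← Finset.mul_prod_erase _ _ (Finset.mem_univ i), if_neg hi]
      have hrest : ∏ j ∈ Finset.univ.erase i,
          (if j ∈ s then ((ε j : V) : F)⁻¹ else ((n j : F) * (π : F)⁻¹)) ∈ V := by
        refine prod_mem fun j hj => ?_
        rw [if_pos (hall j (Finset.ne_of_mem_erase hj))]
        exact hεinv j
      rcases Nat.eq_zero_or_pos (n i) with h | h
      · rw [h]; simp [zero_mem V.toSubring]
      · have hdvd : π ∣ (⟨Φ, hΦV⟩ : V) := by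
          apply hπ.prime.dvd_of_dvd_pow (n := 3)
          have e : (⟨Φ, hΦV⟩ : V) ^ 3 = ⟨u, hu⟩ * ∏ i, (⟨z i, hz i⟩ : V) := by
            apply Subtype.ext
            push_cast
            exact hΦ
          rw [e]
          apply Dvd.dvd.mul_left
          refine dvd_trans ?_ (Finset.dvd_prod_of_mem _ (Finset.mem_univ i))
          obtain ⟨m, hm⟩ : ∃ m, n i = m + 1 := ⟨n i - 1, by omega⟩
          refine ⟨(ε i : V) * π ^ m, Subtype.ext ?_⟩
          push_cast
          rw [hε i, hm, pow_succ]; ring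
        obtain ⟨Φ', hΦ'⟩ := hdvd
        have e1 : Φ = (π : F) * (Φ' : F) := by simpa using congrArg Subtype.val hΦ'
        have e2 : Φ * (((n i : F) * (π : F)⁻¹) * ∏ j ∈ Finset.univ.erase i,
            (if j ∈ s then ((ε j : V) : F)⁻¹ else ((n j : F) * (π : F)⁻¹))) =
            (Φ' : F) * (n i : F) * ∏ j ∈ Finset.univ.erase i,
            (if j ∈ s then ((ε j : V) : F)⁻¹ else ((n j : F) * (π : F)⁻¹)) := by
          rw [e1]; field_simp
        rw [e2]
        exact mul_mem (mul_mem Φ'.2 (natCast_mem V.toSubring _)) hrest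
    · push Not at hs
      refine mul_mem hΦV (prod_mem fun i _ => ?_)
      rw [if_pos (hs i)]
      exact hεinv i

end

end Pool.Agent.T9h22.RS
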