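import Pool.Agent.T9h46.NA.Emb
import Pool.Agent.T9h22.RS.Val
import Pool.Agent.T9h22.RS.Choice

/-!
The generator `omega` is regular in every discrete valuation ring which contains `S`.
-/

set_option linter.unusedSectionVars false

namespace Pool.Agent.T9h22.RS

open MvPolynomial KaehlerDifferential Pool.Agent.T9h29.NA Pool.Agent.T9h46.NA

universe u

variable {K : Type u} [Field K] {B : Type} [Fintype B]
  [DecidableEq B] {ι : B → Type} [∀ b, Fintype (ι b)] [∀ b, DecidableEq (ι b)] {r e : B → ℕ}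
  (M : ∀ b, Matrix (Fin (r b)) (ι b) K) {A : Type*} [AddCommGroup A] (w : Var ι → A)

/-- the class of a monomial -/
noncomputable def mon (m : Var ι →₀ ℕ) : Rg M := Ideal.Quotient.mk (idl M) (monomial m 1)

theorem mon_mem {m : Var ι →₀ ℕ} {n : ℕ} (hm : m ∈ Good w n) : mon M m ∈ Stot M w := by
  refine Algebra.subset_adjoin (Set.mem_iUnion.2 ⟨n, ?_⟩)
  exact Submodule.mem_map_of_mem ((monomial_mem_restrictSupport K).2 (Or.inl hm))

theorem algebraMap_mon [IsDomain (Rg M)] (m : Var ι →₀ ℕ) :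
    algebraMap (Rg M) (ER M) (mon M m) = ∏ v, xE M v ^ m v := by
  rw [mon, monomial_eq, map_mul, C_1, map_one, one_mul, Finsupp.prod_fintype _ _ (by simp),
    map_prod, map_prod]
  refine Finset.prod_congr rfl fun v _ => ?_
  rw [map_pow, map_pow]; rfl

/-- The exponent of `T`. -/
noncomputable def expT (c : ∀ b, ι b) : Var ι →₀ ℕ :=
  Finsupp.equivFunOnFinite.symm fun v => if v.2 = c v.1 then 3 else 0

theorem expT_good (hw : ∀ v, 3 • w v = 0) (c : ∀ b, ι b) : expT c ∈ Good w 3 := by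
  constructor
  · intro b
    simp [bdeg, expT]
  · rw [wgt]
    refine Finset.sum_eq_zero fun v _ => ?_
    simp only [expT, Finsupp.equivFunOnFinite_symm_apply_apply]
    split_ifs
    · exact hw v
    · simp

theorem prod_expT [IsDomain (Rg M)] (c : ∀ b, ι b) :
    ∏ v, xE M v ^ expT c v = ∏ b, xE M ⟨b, c b⟩ ^ 3 := by
  rw [Fintype.prod_sigma]
  refine Finset.prod_congr rfl fun b _ => ?_
  rw [Finset.prod_eq_single (c b)]
  · simp [expT]
  · intro c' _ hc'
    simp [expT, hc']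
  · intro h; exact absurd (Finset.mem_univ _) h

/-- `T` lies in `S`. -/
theorem exists_T [IsDomain (Rg M)] (hw : ∀ v, 3 • w v = 0) (ch : ∀ b, Fin (e b + 1) ↪ ι b) :
    ∃ s : Stot M w, algebraMap (Stot M w) (FS M w) s = T M w ch := by
  refine ⟨⟨mon M (expT fun b => ch b 0), mon_mem M w (expT_good w hw _)⟩, ?_⟩
  symm
  apply pre_eq
  rw [emb_algebraMap, algebraMap_mon, prod_expT]

/-- A product over a block. -/
theorem prod_block {F : Type*} [Field F] {κ : Type*} [Fintype κ] [DecidableEq κ] {n : ℕ}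
    (ch : Fin (n + 1) ↪ κ) (J : Finset κ) (hJ : ∀ v, v ∈ Set.range ch ↔ v ∉ J) (g : κ → F) :
    ∏ c, g c = g (ch 0) * (∏ j : Fin n, g (ch j.succ)) * ∏ c ∈ J, g c := by
  rw [← Finset.prod_compl_mul_prod J, ← Fin.prod_univ_succ (fun i => g (ch i))]
  congr 1
  have : Jᶜ = Finset.univ.map ch := by
    ext v
    rw [Finset.mem_compl, Finset.mem_map, ← hJ v]
    simp
  rw [this, Finset.prod_map]

section

variable [CharZero K] [IsAlgClosed K] [IsDomain (Rg M)]
  (hM : ∀ b, AllMinors (M b)) (hc : ∀ b, Fintype.card (ι b) = 3 * r b + 1)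
  (hr : ∀ b, 1 ≤ r b) (hw : ∀ v, 3 • w v = 0)

include hM hc hr hw

theorem U_ref (ch : ∀ b, Fin (e b + 1) ↪ ι b) (b : B) : U M w ch ⟨b, ch b 0⟩ = 1 := by
  apply emb_injective M w
  rw [emb_U M w hM hc hr hw, map_one]
  exact div_self (pow_ne_zero 3 (xE_ne_zero M hM hc hr _))

theorem U_ne_zero (ch : ∀ b, Fin (e b + 1) ↪ ι b) (v : Var ι) : U M w ch v ≠ 0 := by
  intro h
  have h1 := emb_U M w hM hc hr hw ch v
  rw [h, map_zero] at h1
  exact div_ne_zero (pow_ne_zero 3 (xE_ne_zero M hM hc hr _))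
    (pow_ne_zero 3 (xE_ne_zero M hM hc hr _)) h1.symm

theorem T_ne_zero (ch : ∀ b, Fin (e b + 1) ↪ ι b) : T M w ch ≠ 0 := by
  intro h
  have h1 := emb_T M w hM hc hr hw ch
  rw [h, map_zero] at h1
  exact Finset.prod_ne_zero_iff.2 (fun b _ => pow_ne_zero 3 (xE_ne_zero M hM hc hr _)) h1.symm

/-- Change of the reference coordinates. -/
theorem U_change (ch ch' : ∀ b, Fin (e b + 1) ↪ ι b) (v : Var ι) :
    U M w ch' v = U M w ch v / U M w ch ⟨v.1, ch' v.1 0⟩ := by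
  apply emb_injective M w
  rw [map_div₀, emb_U M w hM hc hr hw, emb_U M w hM hc hr hw, emb_U M w hM hc hr hw]
  have h1 := xE_ne_zero M hM hc hr ⟨v.1, ch v.1 0⟩
  have h2 := xE_ne_zero M hM hc hr ⟨v.1, ch' v.1 0⟩
  field_simp

/-- `Ψ³ ∏ U² = T`. -/
theorem Psi_cube (hsum : ∀ b, ∑ c, w ⟨b, c⟩ = 0) (ch : ∀ b, Fin (e b + 1) ↪ ι b) :
    Psi M w ch ^ 3 * (∏ v, U M w ch v) ^ 2 = T M w ch := by
  apply emb_injective M w
  rw [map_mul, map_pow, map_pow, map_prod, emb_T M w hM hc hr hw,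
    emb_Psi M w hM hc hr hw hsum]
  simp_rw [emb_U M w hM hc hr hw]
  have e4 : ∏ v : Var ι, xE M ⟨v.1, ch v.1 0⟩ ^ 3 =
      ∏ b, (xE M ⟨b, ch b 0⟩ ^ 3) ^ (3 * r b + 1) := by
    rw [Fintype.prod_sigma]
    refine Finset.prod_congr rfl fun b _ => ?_
    change ∏ _y : ι b, xE M ⟨b, ch b 0⟩ ^ 3 = _
    rw [Finset.prod_const, Finset.card_univ, hc]
  rw [Finset.prod_div_distrib, e4]
  have hX : ∏ v, xE M v ≠ 0 := Finset.prod_ne_zero_iff.2 fun v _ => xE_ne_zero M hM hc hr v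
  have hP : ∏ b, xE M ⟨b, ch b 0⟩ ≠ 0 :=
    Finset.prod_ne_zero_iff.2 fun b _ => xE_ne_zero M hM hc hr _
  have e1 : ∏ v, xE M v ^ 2 = (∏ v, xE M v) ^ 2 := Finset.prod_pow _ _ _
  have e2 : ∏ v, xE M v ^ 3 = (∏ v, xE M v) ^ 3 := Finset.prod_pow _ _ _
  rw [e1, e2]
  set X := ∏ v, xE M v
  have e3 : (∏ b, xE M ⟨b, ch b 0⟩ ^ (3 * (2 * r b + 1))) ^ 3 =
      (∏ b, (xE M ⟨b, ch b 0⟩ ^ 3) ^ (3 * r b + 1)) ^ 2 * ∏ b, xE M ⟨b, ch b 0⟩ ^ 3 := by
    rw [← Finset.prod_pow, ← Finset.prod_pow, ← Finset.prod_mul_distrib]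
    refine Finset.prod_congr rfl fun b _ => ?_
    rw [← pow_mul, ← pow_mul, ← pow_mul, ← pow_add]
    congr 1; ring
  have hQ : ∏ b, (xE M ⟨b, ch b 0⟩ ^ 3) ^ (3 * r b + 1) ≠ 0 :=
    Finset.prod_ne_zero_iff.2 fun b _ => pow_ne_zero _ (pow_ne_zero _ (xE_ne_zero M hM hc hr _))
  rw [div_pow, e3, div_pow]
  field_simp

theorem omega_mem (he : ∀ b, e b = 2 * r b) (hsum : ∀ b, ∑ c, w ⟨b, c⟩ = 0) {d : ℕ}
    (q : Fin d ≃ Option (Σ b, Fin (e b)))
    (V : ValuationSubring (FS M w)) (hV : ∀ s : Stot M w, algebraMap _ (FS M w) s ∈ V)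
    [IsDiscreteValuationRing V] :
    ∃ ch : ∀ b, Fin (e b + 1) ↪ ι b, omega M w ch q ∈ Reg K V.toSubring d := by
  classical
  have hcard : ∀ b, Fintype.card (ι b) = r b + (e b + 1) := fun b => by rw [hc b, he b]; ring
  have hK : ∀ k : K, algebraMap K (FS M w) k ∈ V := by
    intro k
    have := hV (algebraMap K _ k)
    rwa [← IsScalarTower.algebraMap_apply] at this
  -- a first choice of the reference coordinates
  have hne : ∀ b, Nonempty (ι b) := fun b => by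
    rw [← Fintype.card_pos_iff, hc b]; omega
  have hex0 : ∀ b, ∃ ch : Fin (e b + 1) ↪ ι b, True := by
    intro b
    obtain ⟨f⟩ := Function.Embedding.nonempty_of_card_le (α := Fin (e b + 1)) (β := ι b)
      (by rw [Fintype.card_fin, hcard b]; omega)
    exact ⟨f, trivial⟩
  choose ch0 _ using hex0
  -- coordinates of minimal value
  have hmax : ∀ b, ∃ c : ι b, ∀ c', V.valuation (U M w ch0 ⟨b, c'⟩) ≤
      V.valuation (U M w ch0 ⟨b, c⟩) := fun b =>
    Finite.exists_max fun c => V.valuation (U M w ch0 ⟨b, c⟩)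
  choose c hcmax using hmax
  have hU0 : ∀ v, U M w ch0 v ≠ 0 := U_ne_zero M w hM hc hr hw ch0
  -- the quotients
  have hρV : ∀ b c', U M w ch0 ⟨b, c'⟩ / U M w ch0 ⟨b, c b⟩ ∈ V := by
    intro b c'
    rw [← ValuationSubring.valuation_le_one_iff, map_div₀]
    exact div_le_one_of_le₀ (hcmax b c') zero_le
  have hρsum : ∀ b j, ∑ c', algebraMap K (FS M w) (M b j c') *
      (U M w ch0 ⟨b, c'⟩ / U M w ch0 ⟨b, c b⟩) = 0 := by
    intro b j
    have h1 := sum_M_U M w hM hc hr hw ch0 b j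
    simp_rw [← mul_div_assoc]
    rw [← Finset.sum_div, h1, zero_div]
  have hJ := fun b => exists_units (K := K) V hK (M b) (hM b) (hcard b)
    (fun c' => U M w ch0 ⟨b, c'⟩ / U M w ch0 ⟨b, c b⟩) (hρV b) (c b)
    (div_self (hU0 _)) (hρsum b)
  choose J hJr hcJ hJu using hJ
  have hch := fun b => exists_ch (hcard b) (c b) (J b) (hJr b) (hcJ b)
  choose ch hch0 hchJ using hch
  refine ⟨ch, ?_⟩
  have hUρ : ∀ v, U M w ch v = U M w ch0 v / U M w ch0 ⟨v.1, c v.1⟩ := by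
    intro v
    rw [U_change M w hM hc hr hw ch0 ch v, hch0]
  have hUV : ∀ v, U M w ch v ∈ V := fun v => by
    rw [hUρ v]; exact hρV v.1 v.2
  have hUn : ∀ v, U M w ch v ≠ 0 := U_ne_zero M w hM hc hr hw ch
  have hTV : T M w ch ∈ V := by
    obtain ⟨s, hs⟩ := exists_T M w hw ch
    rw [← hs]; exact hV s
  have hTn : T M w ch ≠ 0 := T_ne_zero M w hM hc hr hw ch
  -- the logarithmic coordinates
  let zc : Option (Σ b, Fin (e b)) → FS M w := fun o => match o with
    | none => T M w ch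
    | some p => U M w ch ⟨p.1, ch p.1 p.2.succ⟩
  let cc : Option (Σ b, Fin (e b)) → FS M w := fun o => match o with
    | none => 1
    | some p => U M w ch ⟨p.1, ch p.1 p.2.succ⟩
  have hfam : ∀ o, fam M w ch o = cc o • ((zc o)⁻¹ • D K (FS M w) (zc o)) := by
    intro o
    cases o with
    | none => simp [fam, cc, zc]
    | some p =>
      simp only [fam, cc, zc]
      rw [smul_smul, mul_inv_cancel₀ (hUn _), one_smul]
  have homega : omega M w ch q = (Psi M w ch * ∏ o, cc o) •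
      exteriorPower.ιMulti (FS M w) d (fun i => (zc (q i))⁻¹ • D K (FS M w) (zc (q i))) := by
    rw [omega, mul_smul]
    congr 1
    have h1 : (fun i => fam M w ch (q i)) =
        fun i => cc (q i) • ((zc (q i))⁻¹ • D K (FS M w) (zc (q i))) := by
      funext i; exact hfam _
    rw [h1]
    have h2 := (exteriorPower.ιMulti (FS M w) d (M := Ω[FS M w⁄K])).toMultilinearMap.map_smul_univ
      (fun i => cc (q i)) (fun i => (zc (q i))⁻¹ • D K (FS M w) (zc (q i)))
    refine h2.trans ?_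
    rw [Equiv.prod_comp q cc]
    rfl
  rw [homega]
  refine log_mem_Reg V (fun i => zc (q i)) (fun i => ?_) (fun i => ?_) _
    ((∏ b, ∏ c ∈ J b, U M w ch ⟨b, c⟩)⁻¹ ^ 2) ?_ ?_
  · cases h : q i with
    | none => exact hTn
    | some p => exact hUn _
  · cases h : q i with
    | none => exact hTV
    | some p => exact hUV _
  · refine pow_mem ?_ 2
    rw [← Finset.prod_inv_distrib]
    refine prod_mem fun b _ => ?_
    rw [← Finset.prod_inv_distrib]
    refine prod_mem fun c' hc' => ?_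
    rw [hUρ]
    exact (hJu b c' hc').2
  · rw [Equiv.prod_comp q zc, Fintype.prod_option, Fintype.prod_option]
    simp only [zc, cc, one_mul]
    have hI := Psi_cube M w hM hc hr hw hsum ch
    have hprod : ∏ v, U M w ch v = (∏ p : Σ b, Fin (e b), U M w ch ⟨p.1, ch p.1 p.2.succ⟩) *
        ∏ b, ∏ c ∈ J b, U M w ch ⟨b, c⟩ := by
      rw [Fintype.prod_sigma, Fintype.prod_sigma, ← Finset.prod_mul_distrib]
      refine Finset.prod_congr rfl fun b _ => ?_
      rw [prod_block (ch b) (J b) (hchJ b), U_ref M w hM hc hr hw, one_mul]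
    rw [hprod] at hI
    set P := ∏ p : Σ b, Fin (e b), U M w ch ⟨p.1, ch p.1 p.2.succ⟩
    have hQ : ∏ b, ∏ c ∈ J b, U M w ch ⟨b, c⟩ ≠ 0 :=
      Finset.prod_ne_zero_iff.2 fun b _ => Finset.prod_ne_zero_iff.2 fun c' _ => hUn _
    set Q := ∏ b, ∏ c ∈ J b, U M w ch ⟨b, c⟩
    rw [← hI]
    field_simp

end

end Pool.Agent.T9h22.RS
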