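import Pool.Agent.T9h22.RS.Defs
import Pool.Agent.T9h29.NA.Defs

/-!
The fraction field `F` of `S`, its embedding into the fraction field `E` of `R`, and the forms
`omega`.
-/

namespace Pool.Agent.T9h22.RS

open MvPolynomial KaehlerDifferential Pool.Agent.T9h29.NA

universe u

variable {K : Type u} [Field K] {B : Type} [Fintype B] [DecidableEq B] {ι : B → Type}
  [∀ b, Fintype (ι b)] [∀ b, DecidableEq (ι b)] {r : B → ℕ}

section

variable (M : ∀ b, Matrix (Fin (r b)) (ι b) K) {A : Type*} [AddCommGroup A] (w : Var ι → A)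
  [IsDomain (Rg M)]

/-- The fraction field of `S`. -/
abbrev FS : Type u := FractionRing (Stot M w)

/-- The fraction field of `R`. -/
abbrev ER : Type u := FractionRing (Rg M)

theorem val_injective : Function.Injective
    ((Algebra.ofId (Rg M) (ER M)).restrictScalars K |>.comp (Stot M w).val) := by
  intro a b h
  exact Subtype.ext (IsFractionRing.injective (Rg M) (ER M) h)

/-- The embedding `F → E`. -/
noncomputable def emb : FS M w →ₐ[K] ER M :=
  IsFractionRing.liftAlgHom (g := (Algebra.ofId (Rg M) (ER M)).restrictScalars K |>.comp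
    (Stot M w).val) (val_injective M w)

theorem emb_algebraMap (s : Stot M w) :
    emb M w (algebraMap (Stot M w) (FS M w) s) = algebraMap (Rg M) (ER M) (s : Rg M) := by
  rw [emb, IsFractionRing.liftAlgHom_apply]
  exact IsFractionRing.lift_algebraMap _ _

theorem emb_injective : Function.Injective (emb M w) := (emb M w).toRingHom.injective

/-- The coordinates in `E`. -/
noncomputable def xE (v : Var ι) : ER M :=
  algebraMap (Rg M) (ER M) (Ideal.Quotient.mk (idl M) (X v))

/-- The preimage in `F` of an element of `E` (`0` if there is none). -/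
noncomputable def pre (y : ER M) : FS M w :=
  open scoped Classical in if h : ∃ z, emb M w z = y then h.choose else 0

theorem emb_pre {y : ER M} (h : ∃ z, emb M w z = y) : emb M w (pre M w y) = y := by
  rw [pre, dif_pos h]; exact h.choose_spec

theorem pre_eq {y : ER M} {z : FS M w} (h : emb M w z = y) : pre M w y = z :=
  emb_injective M w (by rw [emb_pre M w ⟨z, h⟩, h])

variable {e : B → ℕ} (ch : ∀ b, Fin (e b + 1) ↪ ι b)

/-- `T = ∏_b x_(c_b)^3` for the reference coordinates `c_b = ch b 0`. -/
noncomputable def T : FS M w := pre M w (∏ b, xE M ⟨b, ch b 0⟩ ^ 3)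

/-- `U_v = x_v^3 / x_(c_b)^3`, `v` in the block `b`. -/
noncomputable def U (v : Var ι) : FS M w := pre M w (xE M v ^ 3 / xE M ⟨v.1, ch v.1 0⟩ ^ 3)

/-- `Ψ = ∏_b x_(c_b)^(3(2r_b+1)) / ∏_v x_v^2`. -/
noncomputable def Psi : FS M w :=
  pre M w ((∏ b, xE M ⟨b, ch b 0⟩ ^ (3 * (2 * r b + 1))) / ∏ v, xE M v ^ 2)

/-- The family `dlog T`, `dU_i`, `i = ch b (j+1)`. -/
noncomputable def fam : Option (Σ b, Fin (e b)) → Ω[FS M w⁄K]
  | none => (T M w ch)⁻¹ • D K (FS M w) (T M w ch)
  | some p => D K (FS M w) (U M w ch ⟨p.1, ch p.1 p.2.succ⟩)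

/-- The generator of the canonical module (for the reference data `ch`). -/
noncomputable def omega {d : ℕ} (q : Fin d ≃ Option (Σ b, Fin (e b))) :
    ⋀[FS M w]^d Ω[FS M w⁄K] :=
  Psi M w ch • exteriorPower.ιMulti (FS M w) d (fun i => fam M w ch (q i))

end

end Pool.Agent.T9h22.RS
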