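import Pool.Agent.T9h22.RS.Defs

/-!
A noetherian normal domain is the intersection of its local rings at the primes of height one;
Kempf's criterion from a generator.
-/

set_option linter.unusedSectionVars false

namespace Pool.Agent.T9h22.RS

open KaehlerDifferential

section

variable {S : Type*} [CommRing S]

/-- The ideal `(b : c)`. -/
def colonIdeal (b c : S) : Ideal S where
  carrier := {s | b ∣ s * c}
  add_mem' := by
    intro x y hx hy
    change b ∣ (x + y) * c
    rw [add_mul]; exact dvd_add hx hy
  zero_mem' := by change b ∣ 0 * c; rw [zero_mul]; exact dvd_zero b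
  smul_mem' := by
    intro r x hx
    change b ∣ (r • x) * c
    rw [smul_eq_mul, mul_assoc]; exact Dvd.dvd.mul_left hx r

theorem mem_colonIdeal {b c s : S} : s ∈ colonIdeal b c ↔ b ∣ s * c := Iff.rfl

variable [IsDomain S]

theorem mem_atPrime {p : Ideal S} [p.IsPrime] {x : FractionRing S} :
    x ∈ atPrime p ↔ ∃ a s : S, s ∉ p ∧
      x * algebraMap S (FractionRing S) s = algebraMap S (FractionRing S) a := Iff.rfl

theorem algebraMap_mem_atPrime (p : Ideal S) [hp : p.IsPrime] (a : S) :
    algebraMap S (FractionRing S) a ∈ atPrime p :=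
  ⟨a, 1, fun h => hp.ne_top ((Ideal.eq_top_iff_one p).2 h), by simp⟩

/-- `S` is the intersection of its local rings at the primes of height one. -/
theorem exists_of_forall_atPrime [IsNoetherianRing S] [IsIntegrallyClosed S]
    (g : FractionRing S)
    (h : ∀ (p : Ideal S) [p.IsPrime], p.height = 1 → g ∈ atPrime p) :
    ∃ s : S, algebraMap S (FractionRing S) s = g := by
  classical
  have inj : Function.Injective (algebraMap S (FractionRing S)) :=
    IsFractionRing.injective S (FractionRing S)
  by_contra hg
  obtain ⟨a, b, hb, rfl⟩ := IsFractionRing.div_surjective (A := S) g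
  have hb0 : b ≠ 0 := nonZeroDivisors.ne_zero hb
  have hbF : algebraMap S (FractionRing S) b ≠ 0 := fun e => hb0 (inj (by rw [e, map_zero]))
  have hab : ¬ b ∣ a := by
    rintro ⟨c, rfl⟩
    exact hg ⟨c, by rw [map_mul, mul_div_cancel_left₀ _ hbF]⟩
  obtain ⟨q, ⟨r, hr, rfl⟩, hmax⟩ := set_has_maximal_iff_noetherian.mpr
    (inferInstance : IsNoetherian S S)
    {I : Ideal S | ∃ r : S, ¬ b ∣ r * a ∧ I = colonIdeal b (r * a)}
    ⟨colonIdeal b (1 * a), 1, by rwa [one_mul], rfl⟩
  set a' := r * a with ha'
  have hprime : (colonIdeal b a').IsPrime := by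
    refine ⟨fun e => ?_, ?_⟩
    · apply hr
      have : (1 : S) ∈ colonIdeal b a' := by rw [e]; trivial
      rw [mem_colonIdeal, one_mul] at this
      exact this
    · intro x y hxy
      by_contra hcon
      rw [not_or] at hcon
      obtain ⟨hx, hy⟩ := hcon
      rw [mem_colonIdeal] at hx hy hxy
      have hlt : colonIdeal b a' < colonIdeal b ((x * r) * a) := by
        refine lt_of_le_of_ne ?_ ?_
        · intro s hs
          rw [mem_colonIdeal] at hs ⊢
          have : s * (x * r * a) = x * (s * a') := by rw [ha']; ring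
          rw [this]; exact Dvd.dvd.mul_left hs x
        · intro e
          apply hy
          have : y ∈ colonIdeal b (x * r * a) := by
            rw [mem_colonIdeal]
            have h1 : y * (x * r * a) = x * y * a' := by rw [ha']; ring
            rw [h1]; exact hxy
          rw [← e, mem_colonIdeal] at this
          exact this
      refine hmax _ ⟨x * r, ?_, rfl⟩ hlt
      have : x * r * a = x * a' := by rw [ha']; ring
      rw [this]; exact hx
  -- `b ∈ q`
  have hbq : b ∈ colonIdeal b a' := by rw [mem_colonIdeal]; exact dvd_mul_right b a'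
  have hqbot : colonIdeal b a' ≠ ⊥ := by
    intro e
    rw [e] at hbq
    exact hb0 (by simpa using hbq)
  -- the fraction `g' = a' / b`
  set g' := algebraMap S (FractionRing S) a' / algebraMap S (FractionRing S) b with hg'
  have hg'S : ¬ ∃ s : S, algebraMap S (FractionRing S) s = g' := by
    rintro ⟨s, hs⟩
    apply hr
    refine ⟨s, inj ?_⟩
    rw [map_mul (algebraMap S (FractionRing S)) b s, hs, hg']
    field_simp
  have hmul : ∀ y ∈ colonIdeal b a', ∃ z : S,
      algebraMap S (FractionRing S) z = g' * algebraMap S (FractionRing S) y := by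
    intro y hy
    rw [mem_colonIdeal] at hy
    obtain ⟨z, hz⟩ := hy
    refine ⟨z, ?_⟩
    have : algebraMap S (FractionRing S) y * algebraMap S (FractionRing S) a' =
        algebraMap S (FractionRing S) b * algebraMap S (FractionRing S) z := by
      rw [← map_mul, ← map_mul, hz]
    rw [hg', eq_comm, div_mul_eq_mul_div, div_eq_iff hbF, mul_comm, this, mul_comm]
  -- some `x ∈ q` with `g' x ∉ q`
  have hex : ∃ x ∈ colonIdeal b a', ∃ u : S, u ∉ colonIdeal b a' ∧
      algebraMap S (FractionRing S) u = g' * algebraMap S (FractionRing S) x := by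
    by_contra hcon
    push Not at hcon
    apply hg'S
    have hint : IsIntegral S g' := by
      refine isIntegral_of_smul_mem_submodule (R := S) (M := FractionRing S)
        (Submodule.map (Algebra.linearMap S (FractionRing S)) (colonIdeal b a')) ?_ ?_ g' ?_
      · rw [Submodule.ne_bot_iff]
        refine ⟨algebraMap S (FractionRing S) b, ⟨b, hbq, rfl⟩, hbF⟩
      · exact Submodule.FG.map _ (IsNoetherian.noetherian _)
      · rintro _ ⟨y, hy, rfl⟩
        obtain ⟨z, hz⟩ := hmul y hy
        refine ⟨z, ?_, hz⟩
        by_contra hzq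
        exact hcon y hy z hzq hz
    exact IsIntegrallyClosed.algebraMap_eq_of_integral hint
  obtain ⟨x, hx, u, hu, hux⟩ := hex
  have hx0 : x ≠ 0 := by
    rintro rfl
    rw [map_zero, mul_zero] at hux
    have : u = 0 := inj (by rw [hux, map_zero])
    exact hu (by rw [this]; exact zero_mem _)
  have hmin : colonIdeal b a' ∈ (Ideal.span {x}).minimalPrimes := by
    refine ⟨⟨hprime, (Ideal.span_singleton_le_iff_mem _).2 hx⟩, ?_⟩
    rintro q' ⟨hq', hxq'⟩ hle y hy
    rw [Ideal.span_singleton_le_iff_mem] at hxq'
    obtain ⟨z, hz⟩ := hmul y hy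
    have e : u * y = x * z := by
      apply inj
      rw [map_mul, map_mul, hux, hz]; ring
    have : u * y ∈ q' := by rw [e]; exact q'.mul_mem_right _ hxq'
    rcases hq'.mem_or_mem this with h1 | h1
    · exact absurd (hle h1) hu
    · exact h1
  have hht : (colonIdeal b a').height = 1 := by
    apply le_antisymm
    · exact Ideal.height_le_one_of_isPrincipal_of_mem_minimalPrimes _ _ hmin
    · rw [Order.one_le_iff_ne_zero]
      intro h0
      exact hqbot (Ideal.height_eq_zero_iff_eq_bot.1 h0)
  obtain ⟨c, s, hs, e⟩ := h (colonIdeal b a') hht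
  apply hs
  rw [mem_colonIdeal]
  refine ⟨r * c, inj ?_⟩
  rw [ha', map_mul, map_mul, map_mul, map_mul, ← e]
  field_simp

/-- **Kempf's criterion from a generator.** If some `ω₀ ≠ 0` (or a prime of height one exists)
generates the forms at all primes of height one and is regular in all discrete valuation rings,
then `S` satisfies Kempf's criterion. -/
theorem kempf_of_generator {K : Type*} [Field K] [Algebra K S] [IsNoetherianRing S]
    [IsIntegrallyClosed S] (d : ℕ)
    (ω₀ : ⋀[FractionRing S]^d Ω[FractionRing S⁄K])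
    (hex : ∃ (p : Ideal S) (_ : p.IsPrime), p.height = 1)
    (hC : ∀ (p : Ideal S) [p.IsPrime], p.height = 1 → ∀ x : Fin d → FractionRing S,
      (∀ i, x i ∈ atPrime p) → ∃ g ∈ atPrime p,
        exteriorPower.ιMulti (FractionRing S) d (fun i => D K (FractionRing S) (x i)) = g • ω₀)
    (hB : ∀ V : ValuationSubring (FractionRing S),
      (∀ s : S, algebraMap S (FractionRing S) s ∈ V) → IsDiscreteValuationRing V →
        ω₀ ∈ Reg K V.toSubring d)
    (ω : ⋀[FractionRing S]^d Ω[FractionRing S⁄K])
    (hω : ∀ (p : Ideal S) [p.IsPrime], p.height = 1 → ω ∈ Reg K (atPrime p) d)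
    (V : ValuationSubring (FractionRing S))
    (hV : ∀ s : S, algebraMap S (FractionRing S) s ∈ V) (hVd : IsDiscreteValuationRing V) :
    ω ∈ Reg K V.toSubring d := by
  have key : ∀ (p : Ideal S) [p.IsPrime], p.height = 1 → ∃ g ∈ atPrime p, ω = g • ω₀ := by
    intro p _ hp
    have h1 := hω p hp
    rw [Reg] at h1
    clear hω
    induction h1 using Submodule.span_induction with
    | mem x hx =>
      obtain ⟨y, hy, rfl⟩ := hx
      exact hC p hp y hy
    | zero => exact ⟨0, zero_mem _, by rw [zero_smul]⟩
    | add x y _ _ hx hy =>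
      obtain ⟨g, hg, rfl⟩ := hx
      obtain ⟨g', hg', rfl⟩ := hy
      exact ⟨g + g', add_mem hg hg', by rw [add_smul]⟩
    | smul c x _ hx =>
      obtain ⟨g, hg, rfl⟩ := hx
      exact ⟨c * g, mul_mem c.2 hg, by rw [mul_smul]; rfl⟩
  by_cases h0 : ω₀ = 0
  · obtain ⟨p, hp, hht⟩ := hex
    obtain ⟨g, -, hg⟩ := key p hht
    rw [hg, h0, smul_zero]
    exact zero_mem _
  · obtain ⟨p₀, hp₀, hht₀⟩ := hex
    obtain ⟨g, hg, hgω⟩ := key p₀ hht₀
    have hall : ∀ (p : Ideal S) [p.IsPrime], p.height = 1 → g ∈ atPrime p := by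
      intro p _ hp
      obtain ⟨g', hg', hg'ω⟩ := key p hp
      have e : g • ω₀ = g' • ω₀ := by rw [← hgω, ← hg'ω]
      have e' : g = g' := smul_left_injective (FractionRing S) h0 e
      rw [e']; exact hg'
    obtain ⟨s, hs⟩ := exists_of_forall_atPrime g hall
    rw [hgω, ← hs]
    have h2 := hB V hV hVd
    exact (Reg K V.toSubring d).smul_mem ⟨algebraMap S (FractionRing S) s, hV s⟩ h2

end

end Pool.Agent.T9h22.RS
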