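import Pool.Agent.T9h22.RS.B
import Pool.Agent.T9h22.RS.Abs
import Pool.Agent.T9h40.NA.Gen
import Pool.Agent.T9h8.NA.Normal

/-!
Rational singularities of `S`.
-/

set_option linter.unusedSectionVars false

namespace Pool.Agent.T9h22.RS

open MvPolynomial KaehlerDifferential Pool.Agent.T9h29.NA Pool.Agent.T9h46.NA

universe u

variable {K : Type u} [Field K] [CharZero K] [IsAlgClosed K] {B : Type} [Fintype B]
  [DecidableEq B] {ι : B → Type} [∀ b, Fintype (ι b)] [∀ b, DecidableEq (ι b)] {r e : B → ℕ}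
  (M : ∀ b, Matrix (Fin (r b)) (ι b) K) {A : Type*} [AddCommGroup A] (w : Var ι → A)
  [IsDomain (Rg M)]

theorem fracAlg_eq : (inferInstance : Algebra K (FS M w)) = fracAlg K (Stot M w) := rfl

theorem famData (hM : ∀ b, AllMinors (M b))
    (hc : ∀ b, Fintype.card (ι b) = 3 * r b + 1)
    (he : ∀ b, e b = 2 * r b) (hr : ∀ b, 1 ≤ r b) (hw : ∀ v, 3 • w v = 0)
    (hsum : ∀ b, ∑ c, w ⟨b, c⟩ = 0) {d : ℕ} (q : Fin d ≃ Option (Σ b, Fin (e b)))
    (hC : ∀ (p : Ideal (Stot M w)) [p.IsPrime], p.height = 1 →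
      ∃ ch : ∀ b, Fin (e b + 1) ↪ ι b, ∀ x : Fin d → FS M w, (∀ i, x i ∈ atPrime p) →
        ∃ g ∈ atPrime p, exteriorPower.ιMulti (FS M w) d (fun i => D K (FS M w) (x i)) =
          g • omega M w ch q) :
    FamData K (Stot M w) (inferInstance : Algebra K (FS M w)) (∀ b, Fin (e b + 1) ↪ ι b) d :=
  ⟨fun ch => omega M w ch q,
    fun c c' => Pool.Agent.T9h40.NA.omega_gen M w hM hc he hr hw hsum c c' q,
    fun p _ hp => hC p hp,
    fun V hV hVd => omega_mem M w hM hc hr hw he hsum q V hV⟩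

end Pool.Agent.T9h22.RS
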